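import Pool.Agent.H33.HC.TB

/-!
# ZCB: the constant of the harmonic sums
-/

set_option autoImplicit false

open Pool.Agent.H33.HC Pool.Agent.H33.HH Pool.Agent.H28.RC Pool.Agent.H37.CV Pool.Agent.H65.CRZ
open MeasureTheory NumberField

namespace Pool.Agent.H36.HC

theorem pf_ZCB (h : Pool.Agent.H33.HH.T_CNT) : T_ZCB := by
  intro K _ _ _ P
  obtain ⟨C, hC, hb⟩ := h K P
  refine ⟨|rk K P| + 6 * C, by positivity, fun w hw hw1 => ?_⟩
  have hI : ‖∫ x in Set.Ioi (1 : ℝ), ((cn K P x - rk K P * x : ℝ) : ℂ) *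
      (x : ℂ) ^ (-2 - w)‖ ≤ 16 / 3 * C := by
    have h1 : IntegrableOn (fun x : ℝ => C * x ^ (-19 / 16 : ℝ)) (Set.Ioi 1) :=
      (integrableOn_Ioi_rpow_of_lt (by norm_num) one_pos).const_mul C
    refine (norm_integral_le_of_norm_le h1 ?_).trans ?_
    · refine (ae_restrict_iff' measurableSet_Ioi).2 (Filter.Eventually.of_forall fun x hx => ?_)
      have hx1 : (1 : ℝ) < x := hx
      have hx0 : 0 < x := one_pos.trans hx1
      rw [norm_mul, Complex.norm_real, Complex.norm_cpow_eq_rpow_re_of_pos hx0, Real.norm_eq_abs]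
      have h2 : |cn K P x - rk K P * x| ≤ C * x ^ (3 / 4 : ℝ) := hb x hx1.le
      have h3 : x ^ ((-2 - w : ℂ).re) ≤ x ^ (-31 / 16 : ℝ) := by
        refine Real.rpow_le_rpow_of_exponent_le hx1.le ?_
        have h4 : |w.re| ≤ 1 / 16 := (Complex.abs_re_le_norm w).trans hw1
        have h5 := neg_le_of_abs_le h4
        have h6 : (-2 - w : ℂ).re = -2 - w.re := by simp
        rw [h6]
        linarith
      calc |cn K P x - rk K P * x| * x ^ ((-2 - w : ℂ).re) ≤
          (C * x ^ (3 / 4 : ℝ)) * x ^ (-31 / 16 : ℝ) :=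
            mul_le_mul h2 h3 (Real.rpow_nonneg hx0.le _)
              (mul_nonneg hC (Real.rpow_nonneg hx0.le _))
        _ = C * x ^ (-19 / 16 : ℝ) := by
            rw [mul_assoc, ← Real.rpow_add hx0]
            norm_num
    · rw [integral_const_mul, integral_Ioi_rpow_of_lt (by norm_num) one_pos, Real.one_rpow]
      norm_num
      linarith
  have h2 : Zc K P w - (rk K P : ℂ) / w = (rk K P : ℂ) + (1 + w) *
      ∫ x in Set.Ioi (1 : ℝ), ((cn K P x - rk K P * x : ℝ) : ℂ) * (x : ℂ) ^ (-2 - w) := by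
    unfold Zc
    ring
  rw [h2]
  refine (norm_add_le _ _).trans ?_
  rw [Complex.norm_real, Real.norm_eq_abs, norm_mul]
  have h3 : ‖(1 : ℂ) + w‖ ≤ 17 / 16 := by
    refine (norm_add_le _ _).trans ?_
    rw [norm_one]
    linarith
  have h4 := mul_le_mul h3 hI (norm_nonneg _) (by norm_num)
  linarith

end Pool.Agent.H36.HC
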